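import Pool.Agent.K1H34.HYS.Stm

/-!
# HYS-FRAC: the blocks of the edges
-/

set_option autoImplicit false
open Classical Finset

namespace Pool.Agent.K1H33.HYS

open Pool.Agent.K1H34.HYS

section

variable {V : Type} [Fintype V] {G : SimpleGraph V} {s : V → ℕ} {M r b : ℕ}

/-- the other end of an edge at `v` -/
noncomputable def oth (v : V) (e : G.edgeSet) : V :=
  if h : v ∈ (e : Sym2 V) then Sym2.Mem.other h else v

theorem oth_spec {v : V} {e : G.edgeSet} (h : v ∈ (e : Sym2 V)) : s(v, oth v e) = (e : Sym2 V) := by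
  unfold oth
  rw [dif_pos h]
  exact Sym2.other_spec h

theorem oth_adj {v : V} {e : G.edgeSet} (h : v ∈ (e : Sym2 V)) : G.Adj v (oth v e) := by
  rw [← SimpleGraph.mem_edgeSet, oth_spec h]
  exact e.2

theorem oth_mem {v : V} {e : G.edgeSet} (h : v ∈ (e : Sym2 V)) : oth v e ∈ (e : Sym2 V) := by
  rw [← oth_spec h]
  exact Sym2.mem_mk_right _ _

theorem oth_eq {v u : V} {e : G.edgeSet} (h : (e : Sym2 V) = s(v, u)) : oth v e = u := by
  have h1 : v ∈ (e : Sym2 V) := by rw [h]; exact Sym2.mem_mk_left _ _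
  have h2 := oth_spec h1
  rw [h] at h2
  exact Sym2.congr_right.1 h2

/-- the blocks which are not near -/
noncomputable def Pe (s : V → ℕ) (M r : ℕ) (e : Sym2 V) : Finset (Fin M) :=
  univ.filter (fun m : Fin M => ∀ v ∈ e, ¬ near M r m (s v))

theorem mem_Pe {e : Sym2 V} {m : Fin M} : m ∈ Pe s M r e ↔ ∀ v ∈ e, ¬ near M r m (s v) := by
  simp [Pe]

theorem card_Pe (hN : S_NEAR) (hs : ∀ v, s v < M) (hM : 2 * (2 * r + 1) < M) (e : Sym2 V) :
    M ≤ (Pe s M r e).card + 2 * (2 * r + 1) := by
  obtain ⟨-, hN2⟩ := hN M r (by omega)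
  induction e using Sym2.ind with
  | _ u v =>
    have hle : ∀ j, j < M → (univ.filter (fun m : Fin M => near M r m j)).card ≤ 2 * r + 1 := by
      intro j hj
      rw [← hN2 j hj]
      refine Finset.card_le_card_of_injOn (fun m : Fin M => (m : ℕ)) ?_ ?_
      · intro m hm
        rw [mem_coe, mem_filter] at hm
        rw [mem_coe, mem_filter, mem_range]
        exact ⟨m.2, hm.2⟩
      · intro m _ m' _ h
        exact Fin.ext h
    have hsub : (univ : Finset (Fin M)) ⊆ Pe s M r s(u, v) ∪
        (univ.filter (fun m : Fin M => near M r m (s u)) ∪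
          univ.filter (fun m : Fin M => near M r m (s v))) := by
      intro m _
      rw [mem_union, mem_union, mem_Pe, mem_filter, mem_filter]
      by_cases h1 : near M r m (s u)
      · exact Or.inr (Or.inl ⟨mem_univ _, h1⟩)
      · by_cases h2 : near M r m (s v)
        · exact Or.inr (Or.inr ⟨mem_univ _, h2⟩)
        · refine Or.inl fun x hx => ?_
          rw [Sym2.mem_iff] at hx
          rcases hx with rfl | rfl
          · exact h1
          · exact h2
    have h1 := card_le_card hsub
    rw [card_univ, Fintype.card_fin] at h1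
    have h2 := card_union_le (Pe s M r s(u, v))
      (univ.filter (fun m : Fin M => near M r m (s u)) ∪
        univ.filter (fun m : Fin M => near M r m (s v)))
    have h3 := card_union_le (univ.filter (fun m : Fin M => near M r m (s u)))
      (univ.filter (fun m : Fin M => near M r m (s v)))
    have h4 := hle _ (hs u)
    have h5 := hle _ (hs v)
    omega

/-- the weights -/
noncomputable def wt (s : V → ℕ) (M r : ℕ) (e : Sym2 V) (m : Fin M) : ℝ :=
  if m ∈ Pe s M r e then 1 / ((Pe s M r e).card : ℝ) else 0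

end

theorem t_FRAC : S_NEAR → S_RND → S_FRAC := by
  intro hN hR V _ G s M r b hs hM hcnt
  have hMR : (0 : ℝ) < (M : ℝ) - 2 * (2 * r + 1) := by
    have : (((2 * (2 * r + 1) : ℕ)) : ℝ) < M := by exact_mod_cast hM
    push_cast at this
    linarith
  have hP : ∀ e : Sym2 V, (M : ℝ) - 2 * (2 * r + 1) ≤ (Pe s M r e).card := by
    intro e
    have h1 := card_Pe hN hs hM e
    have h2 : (M : ℝ) ≤ (((Pe s M r e).card + 2 * (2 * r + 1) : ℕ) : ℝ) := by exact_mod_cast h1
    push_cast at h2
    linarith
  have hP0 : ∀ e : Sym2 V, (0 : ℝ) < (Pe s M r e).card := fun e => hMR.trans_le (hP e)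
  obtain ⟨a₀, ha1, ha2⟩ := hR G.edgeSet V M (fun e => univ.filter (fun v => v ∈ (e : Sym2 V)))
    (fun e m => wt s M r e m) (fun _ _ => (b : ℝ) - 4)
    (fun e => by
      obtain ⟨e, he⟩ := e
      induction e using Sym2.ind with
      | _ u v =>
        refine (card_le_card (t := {u, v}) fun x hx => ?_).trans card_le_two
        rw [mem_filter] at hx
        have h1 := Sym2.mem_iff.1 hx.2
        rw [mem_insert, mem_singleton]
        exact h1)
    (fun e m => by
      unfold wt
      split_ifs
      · positivity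
      · exact le_rfl)
    (fun e => by
      unfold wt
      rw [← sum_filter, sum_const, nsmul_eq_mul]
      have h1 : univ.filter (fun m => m ∈ Pe s M r (e : Sym2 V)) = Pe s M r (e : Sym2 V) := by
        ext m
        simp
      rw [h1]
      exact mul_one_div_cancel (hP0 e).ne')
    (fun v m => by
      have h1 : ∀ e : G.edgeSet, wt s M r (e : Sym2 V) m ≤
          if m ∈ Pe s M r (e : Sym2 V) then 1 / ((M : ℝ) - 2 * (2 * r + 1)) else 0 := by
        intro e
        unfold wt
        split_ifs
        · exact one_div_le_one_div_of_le hMR (hP e)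
        · exact le_rfl
      refine (sum_le_sum fun e _ => h1 e).trans ?_
      rw [← sum_filter, sum_const, nsmul_eq_mul, mul_one_div, div_le_iff₀ hMR]
      rw [mul_comm]
      refine le_trans ?_ (hcnt v m m.2)
      have h2 : (filter (fun e : G.edgeSet => m ∈ Pe s M r (e : Sym2 V))
          (filter (fun e : G.edgeSet => v ∈ univ.filter (fun v => v ∈ (e : Sym2 V))) univ)).card ≤
          (univ.filter (fun u => G.Adj v u ∧ ¬ near M r m (s u))).card := by
        refine Finset.card_le_card_of_injOn (oth v) ?_ ?_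
        · intro e he
          simp only [mem_coe, mem_filter, mem_univ, true_and] at he ⊢
          exact ⟨oth_adj he.1, (mem_Pe.1 he.2) _ (oth_mem he.1)⟩
        · intro e he e' he' h
          simp only [mem_coe, mem_filter, mem_univ, true_and] at he he'
          apply Subtype.ext
          rw [← oth_spec he.1, ← oth_spec he'.1, h]
      exact_mod_cast h2)
  have hb : ∀ v : V, 4 ≤ b := by
    intro v
    have h1 := hcnt v 0 (by omega)
    have h2 : (0 : ℝ) ≤ ((M : ℝ) - 2 * (2 * r + 1)) * ((b : ℝ) - 4) :=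
      (Nat.cast_nonneg _).trans h1
    have h3 : (0 : ℝ) ≤ (b : ℝ) - 4 := nonneg_of_mul_nonneg_right h2 hMR
    have h4 : (4 : ℝ) ≤ b := by linarith
    exact_mod_cast h4
  obtain ⟨F, hF⟩ : ∃ F : Sym2 V → ℕ, ∀ e : G.edgeSet, F e = a₀ e := by
    refine ⟨fun e => if h : e ∈ G.edgeSet then (a₀ ⟨e, h⟩ : ℕ) else 0, fun e => ?_⟩
    dsimp only
    rw [dif_pos e.2]
  refine ⟨fun u v => F s(u, v), fun u v => ?_, fun u v h => ?_, fun v m => ?_⟩
  · dsimp only
    rw [Sym2.eq_swap]
  · have h1 := hF ⟨s(u, v), h⟩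
    dsimp only at h1 ⊢
    rw [h1]
    have h2 := ha1 ⟨s(u, v), h⟩
    have h3 : a₀ ⟨s(u, v), h⟩ ∈ Pe s M r s(u, v) := by
      by_contra h4
      dsimp only [wt] at h2
      rw [if_neg h4] at h2
      exact lt_irrefl _ h2
    rw [mem_Pe] at h3
    exact ⟨(a₀ ⟨s(u, v), h⟩).2, h3 u (Sym2.mem_mk_left _ _), h3 v (Sym2.mem_mk_right _ _)⟩
  · by_cases hm : m < M
    · have h1 := ha2 v ⟨m, hm⟩
      have h2 : (univ.filter (fun u => G.Adj v u ∧ F s(v, u) = m)).card ≤
          (univ.filter (fun e : G.edgeSet => v ∈ univ.filter (fun v => v ∈ (e : Sym2 V)) ∧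
            a₀ e = ⟨m, hm⟩)).card := by
        refine (card_le_card (t := (univ.filter (fun e : G.edgeSet =>
          v ∈ univ.filter (fun v => v ∈ (e : Sym2 V)) ∧ a₀ e = ⟨m, hm⟩)).image (oth v))
          fun u hu => ?_).trans card_image_le
        rw [mem_filter] at hu
        obtain ⟨-, hu1, hu2⟩ := hu
        rw [mem_image]
        refine ⟨⟨s(v, u), hu1⟩, ?_, oth_eq rfl⟩
        simp only [mem_filter, mem_univ, true_and]
        refine ⟨Sym2.mem_mk_left _ _, Fin.ext ?_⟩
        rw [← hF ⟨s(v, u), hu1⟩]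
        exact hu2
      have h3 : (((univ.filter (fun u => G.Adj v u ∧ F s(v, u) = m)).card : ℕ) : ℝ) < b := by
        refine lt_of_le_of_lt (Nat.cast_le.2 h2) (h1.trans_le ?_)
        linarith
      exact_mod_cast h3
    · have h1 : univ.filter (fun u => G.Adj v u ∧ F s(v, u) = m) = ∅ := by
        rw [filter_eq_empty_iff]
        rintro u - ⟨hu1, hu2⟩
        have h2 := hF ⟨s(v, u), hu1⟩
        dsimp only at h2
        rw [h2] at hu2
        exact hm (hu2 ▸ (a₀ ⟨s(v, u), hu1⟩).2)
      rw [h1, card_empty]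
      have := hb v
      omega

end Pool.Agent.K1H33.HYS
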