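import Pool.Agent.K1H34.HYS.Stm

/-!
# HYS-NUM: choice of the parameters
-/

set_option autoImplicit false
open Classical Finset Filter

namespace Pool.Agent.K1H33.HYS

open Pool.Agent.K1H34.HYS

theorem exists_D0 : ∃ D₀ : ℕ, ∀ D : ℕ, D₀ ≤ D → 1 ≤ Real.log D ∧
    6400 * Real.log D ≤ √(D : ℝ) := by
  have h1 : ∀ᶠ x : ℝ in atTop, ‖Real.log x‖ ≤ (1 / 6400) * ‖x ^ (1 / 2 : ℝ)‖ :=
    (isLittleO_log_rpow_atTop (by norm_num : (0 : ℝ) < 1 / 2)).bound (by norm_num)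
  have h2 : ∀ᶠ x : ℝ in atTop, 1 ≤ Real.log x := Real.tendsto_log_atTop.eventually_ge_atTop 1
  have h3 := tendsto_natCast_atTop_atTop.eventually (h1.and (h2.and (eventually_ge_atTop (1 : ℝ))))
  obtain ⟨D₀, h⟩ := eventually_atTop.1 h3
  refine ⟨D₀, fun D hD => ?_⟩
  obtain ⟨a1, a2, a3⟩ := h D hD
  refine ⟨a2, ?_⟩
  rw [Real.norm_of_nonneg (by linarith), Real.norm_of_nonneg (by positivity)] at a1
  rw [Real.sqrt_eq_rpow]
  linarith

theorem core {D p L S z b : ℝ} (hS : S ^ 2 = D) (hL : 1 ≤ L)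
    (hSL : 6400 * L ≤ S) (hp : 1 ≤ p) (hpD : 64 * p ≤ D) (hz0 : 0 ≤ z) (hz : z ^ 3 = p ^ 2 * L)
    (hb2 : b ≤ S + z + 1) : z ≤ D / 1000 ∧ b ≤ D / 400 := by
  have hS1 : 6400 ≤ S := by linarith
  have hS0 : 0 ≤ S := by linarith
  have h1 : z ≤ D / 1000 := by
    have h2 : p ^ 2 * L ≤ (D / 64) ^ 2 * (S / 6400) := by
      have h3 : p ≤ D / 64 := by linarith
      have h4 : L ≤ S / 6400 := by linarith
      exact mul_le_mul (pow_le_pow_left₀ (by linarith) h3 2) h4 (by linarith) (by positivity)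
    have h3 : (D / 64) ^ 2 * (S / 6400) ≤ (D / 1000) ^ 3 := by
      rw [← hS]
      have h4 : 0 ≤ S ^ 5 * (S - 39) := mul_nonneg (by positivity) (by linarith)
      have h5 : 0 ≤ S ^ 5 := by positivity
      nlinarith
    have h4 : z ^ 3 ≤ (D / 1000) ^ 3 := by rw [hz]; linarith
    have hD0 : 0 ≤ D / 1000 := by rw [← hS]; positivity
    exact (pow_le_pow_iff_left₀ hz0 hD0 (by norm_num)).1 h4
  refine ⟨h1, ?_⟩
  have h2 : 6400 * S ≤ D := by rw [← hS]; nlinarith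
  linarith

theorem main_ineq {D b u β Y Y0 x M K R J : ℝ} (hb : 0 < b) (hD : 0 < D) (_hu : u * b = D)
    (hβ : β = R * b) (hβ0 : 0 ≤ β) (hR : 0 ≤ R) (hβD : β ≤ D / 25) (hx0 : 0 ≤ x) (hx : x ≤ 1 / 10)
    (hK : K = M + J) (hKp : 0 < K) (hJ : J * b ≤ 2 * x * D + b) (hY : Y = b * M - D - β)
    (hY0 : Y0 * D = 2 * (β ^ 2 + 8 * (u * D) + 3 * x * β * D + b * β)) (hYY : Y0 ≤ Y)
    (hM : M ≤ 1.1 * u) (hu0 : 0 ≤ u) :
    D * (1 - R / K) + R * (x * D) / K ≤ (M - 2 * R) * (b - 4) := by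
  have hYD : Y0 * D ≤ Y * D := mul_le_mul_of_nonneg_right hYY hD.le
  have huD : 0 ≤ u * D := mul_nonneg hu0 hD.le
  have hxb : 0 ≤ x * β * D := by positivity
  have hbb : 0 ≤ b * β := by positivity
  have hYp : 0 ≤ Y := by
    have : 0 ≤ Y * D := by
      refine le_trans ?_ hYD
      rw [hY0]
      positivity
    exact nonneg_of_mul_nonneg_left this hD
  have h1 : D * (1 - R / K) + R * (x * D) / K = D - D * R * (1 - x) / K := by
    field_simp
    ring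
  rw [h1]
  have h2 : D - (M - 2 * R) * (b - 4) ≤ D * R * (1 - x) / K := by
    rw [le_div_iff₀ hKp]
    have h3 : (D - (M - 2 * R) * (b - 4)) * K * b ≤ D * R * (1 - x) * b := by
      have e1 : D * R * (1 - x) * b = D * β * (1 - x) := by rw [hβ]; ring
      rw [e1]
      have e2 : D - (M - 2 * R) * (b - 4) ≤ β + 4 * M - Y := by
        rw [hY, hβ]
        nlinarith
      have hKb : K * b ≤ D * (1 + 2 * x) + β + Y + b := by
        rw [hK, hY]
        nlinarith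
      have hKb0 : 0 ≤ K * b := by positivity
      rw [mul_assoc]
      rcases le_total (β + 4 * M - Y) 0 with h4 | h4
      · have h5 : (D - (M - 2 * R) * (b - 4)) * (K * b) ≤ 0 :=
          mul_nonpos_of_nonpos_of_nonneg (e2.trans h4) hKb0
        refine h5.trans ?_
        have : 0 ≤ 1 - x := by linarith
        positivity
      · calc (D - (M - 2 * R) * (b - 4)) * (K * b) ≤ (β + 4 * M - Y) * (K * b) :=
              mul_le_mul_of_nonneg_right e2 hKb0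
          _ ≤ (β + 4 * M - Y) * (D * (1 + 2 * x) + β + Y + b) :=
              mul_le_mul_of_nonneg_left hKb h4
          _ ≤ D * β * (1 - x) := by
              have h5 : 4 * M ≤ 4.4 * u := by linarith
              have h6 : 4 * M * D ≤ 4.4 * (u * D) := by nlinarith
              have h7 : β * Y ≤ D / 25 * Y := mul_le_mul_of_nonneg_right hβD hYp
              have h8 : 3 * x * β * D + β ^ 2 + β * Y + β * b ≤ (Y - 4 * M) * D := by
                nlinarith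
              have h9 : 0 ≤ Y - 4 * M := by
                have h10 : 0 ≤ (Y - 4 * M) * D := by
                  refine le_trans ?_ h8
                  positivity
                exact nonneg_of_mul_nonneg_left h10 hD
              have h10 : 0 ≤ (Y - 4 * M) * (2 * x * D + β + Y + b) := by positivity
              nlinarith
    exact le_of_mul_le_mul_right h3 hb
  linarith

theorem z_cube {D p : ℕ} (hL : 0 ≤ Real.log D) :
    ((p : ℝ) ^ (2 / 3 : ℝ) * Real.log D ^ (1 / 3 : ℝ)) ^ 3 = (p : ℝ) ^ 2 * Real.log D := by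
  have hp : (0 : ℝ) ≤ p := Nat.cast_nonneg _
  rw [mul_pow, ← Real.rpow_natCast, ← Real.rpow_natCast, ← Real.rpow_mul hp, ← Real.rpow_mul hL,
    show (2 / 3 : ℝ) * ((3 : ℕ) : ℝ) = ((2 : ℕ) : ℝ) by norm_num,
    show (1 / 3 : ℝ) * ((3 : ℕ) : ℝ) = 1 by norm_num, Real.rpow_natCast, Real.rpow_one]

theorem t_NUM : S_NUM := by
  obtain ⟨D₀, hD₀⟩ := exists_D0
  refine ⟨4096 + √(D₀ : ℝ), by positivity, fun D p hD hp => ?_⟩
  obtain ⟨z, hz⟩ : ∃ z : ℝ, z = (p : ℝ) ^ (2 / 3 : ℝ) * Real.log D ^ (1 / 3 : ℝ) := ⟨_, rfl⟩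
  have hDr : (1 : ℝ) ≤ D := by exact_mod_cast hD
  have hpr : (1 : ℝ) ≤ p := by exact_mod_cast hp
  have hlog : 0 ≤ Real.log D := Real.log_nonneg hDr
  have hz0 : 0 ≤ z := by rw [hz]; positivity
  obtain ⟨E, hE⟩ : ∃ E : ℝ, E = err D p := ⟨_, rfl⟩
  have hE' : E = √(D : ℝ) + z + (p : ℝ) ^ 2 / D := by rw [hE, hz]; rfl
  have hS0 : 0 ≤ √(D : ℝ) := Real.sqrt_nonneg _
  have hpD0 : 0 ≤ (p : ℝ) ^ 2 / D := by positivity
  have hE0 : 0 ≤ E := by rw [hE']; positivity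
  rw [← hE]
  have hC : 0 ≤ √(D₀ : ℝ) * E := by positivity
  by_cases h1 : D ≤ 64 * p
  · left
    have h2 : (D : ℝ) ≤ 64 * p := by exact_mod_cast h1
    have h3 : (D : ℝ) ≤ 4096 * ((p : ℝ) ^ 2 / D) := by
      rw [← mul_div_assoc, le_div_iff₀ (by linarith)]
      nlinarith
    have h4 : (p : ℝ) ^ 2 / D ≤ E := by rw [hE']; linarith
    have e1 : (4096 + √(D₀ : ℝ)) * E = 4096 * E + √(D₀ : ℝ) * E := by ring
    rw [e1]
    push_cast
    linarith
  by_cases h2 : D < D₀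
  · left
    have h3 : √(D : ℝ) ≤ √(D₀ : ℝ) := Real.sqrt_le_sqrt (by exact_mod_cast h2.le)
    have h4 : √(D : ℝ) ≤ E := by rw [hE']; linarith
    have h5 : (D : ℝ) = √(D : ℝ) * √(D : ℝ) := (Real.mul_self_sqrt (by linarith)).symm
    have h6 : √(D : ℝ) * √(D : ℝ) ≤ √(D₀ : ℝ) * E := mul_le_mul h3 h4 hS0 (Real.sqrt_nonneg _)
    have e1 : (4096 + √(D₀ : ℝ)) * E = 4096 * E + √(D₀ : ℝ) * E := by ring
    rw [e1]
    push_cast
    linarith
  right
  obtain ⟨hL, hSL⟩ := hD₀ D (by omega)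
  obtain ⟨L, hLd⟩ : ∃ L : ℝ, L = Real.log D := ⟨_, rfl⟩
  obtain ⟨S, hSd⟩ : ∃ S : ℝ, S = √(D : ℝ) := ⟨_, rfl⟩
  rw [← hLd] at hL hSL
  rw [← hSd] at hSL hS0 hE'
  have hS : S ^ 2 = D := by rw [hSd]; exact Real.sq_sqrt (by linarith)
  have hz3 : z ^ 3 = (p : ℝ) ^ 2 * L := by rw [hz, hLd]; exact z_cube hlog
  have hpD : 64 * (p : ℝ) ≤ D := by
    have : 64 * p ≤ D := by omega
    exact_mod_cast this
  -- the block length
  obtain ⟨b, hb⟩ : ∃ b : ℕ, b = ⌈S + z⌉₊ := ⟨_, rfl⟩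
  have hb1 : S + z ≤ b := by rw [hb]; exact Nat.le_ceil _
  have hb2 : (b : ℝ) ≤ S + z + 1 := by rw [hb]; exact (Nat.ceil_lt_add_one (by positivity)).le
  obtain ⟨hzD, hbD⟩ := core hS hL hSL hpr hpD hz0 hz3 hb2
  have hS1 : 6400 ≤ S := by linarith
  have hbS : S ≤ b := by linarith
  have hbz : z ≤ b := by linarith
  have hb0 : (0 : ℝ) < b := by linarith
  have hSD : 6400 * S ≤ D := by
    rw [← hS, sq]
    exact mul_le_mul_of_nonneg_right hS1 hS0
  have hD0 : (0 : ℝ) < D := by linarith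
  -- x
  obtain ⟨x, hx⟩ : ∃ x : ℝ, x = 8 * √(L / b) := ⟨_, rfl⟩
  have hx0 : 0 ≤ x := by rw [hx]; positivity
  have hx2 : x ^ 2 * b = 64 * L := by
    rw [hx, mul_pow, Real.sq_sqrt (by positivity)]
    field_simp
    norm_num
  have hx1 : x ≤ 1 / 10 := by
    have h3 : x ^ 2 ≤ (1 / 10) ^ 2 := by
      have h4 : x ^ 2 * b ≤ (1 / 10) ^ 2 * b := by
        rw [hx2]
        linarith
      exact le_of_mul_le_mul_right h4 hb0
    exact (pow_le_pow_iff_left₀ hx0 (by norm_num) two_ne_zero).1 h3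
  have hxp : x * p ≤ 8 * z := by
    have h3 : (x * p) ^ 2 ≤ (8 * z) ^ 2 := by
      have h4 : (x * p) ^ 2 * b ≤ (8 * z) ^ 2 * b := by
        have e1 : (x * p) ^ 2 * b = 64 * z ^ 3 := by
          rw [hz3]
          calc (x * (p : ℝ)) ^ 2 * b = (x ^ 2 * b) * p ^ 2 := by ring
            _ = _ := by rw [hx2]; ring
        rw [e1]
        have h5 : z ^ 2 * z ≤ z ^ 2 * b := mul_le_mul_of_nonneg_left hbz (sq_nonneg z)
        calc 64 * z ^ 3 = 64 * (z ^ 2 * z) := by ring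
          _ ≤ 64 * (z ^ 2 * b) := mul_le_mul_of_nonneg_left h5 (by norm_num)
          _ = (8 * z) ^ 2 * b := by ring
      exact le_of_mul_le_mul_right h4 hb0
    exact (pow_le_pow_iff_left₀ (by positivity) (by positivity) two_ne_zero).1 h3
  -- r
  obtain ⟨r, hr⟩ : ∃ r : ℕ, r = ⌈(p : ℝ) / b⌉₊ := ⟨_, rfl⟩
  have hr1 : (p : ℝ) ≤ r * b := by
    have : (p : ℝ) / b ≤ r := by rw [hr]; exact Nat.le_ceil _
    rwa [div_le_iff₀ hb0] at this
  have hr2 : (r : ℝ) * b ≤ p + b := by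
    have h3 : (r : ℝ) ≤ p / b + 1 := by rw [hr]; exact (Nat.ceil_lt_add_one (by positivity)).le
    calc (r : ℝ) * b ≤ (p / b + 1) * b := mul_le_mul_of_nonneg_right h3 hb0.le
      _ = p + b := by field_simp
  obtain ⟨R, hR⟩ : ∃ R : ℝ, R = 2 * r + 1 := ⟨_, rfl⟩
  have hR0 : 0 < R := by rw [hR]; positivity
  obtain ⟨β, hβ⟩ : ∃ β : ℝ, β = R * b := ⟨_, rfl⟩
  have hβ1 : 2 * (p : ℝ) + b ≤ β := by rw [hβ, hR]; linarith
  have hβ2 : β ≤ 2 * (p : ℝ) + 3 * b := by rw [hβ, hR]; linarith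
  have hβ0 : 0 < β := by linarith
  have hβD : β ≤ D / 25 := by linarith
  -- u
  obtain ⟨u, hu⟩ : ∃ u : ℝ, u = D / b := ⟨_, rfl⟩
  have hub : u * b = D := by rw [hu]; field_simp
  have huS : u ≤ S := by
    rw [hu, div_le_iff₀ hb0, ← hS, sq]
    exact mul_le_mul_of_nonneg_left hbS hS0
  have hu4 : 400 ≤ u := by
    rw [hu, le_div_iff₀ hb0]
    linarith
  have hu0 : 0 < u := by linarith
  -- Y0
  obtain ⟨q1, hq1⟩ : ∃ q1 : ℝ, q1 = β ^ 2 / D := ⟨_, rfl⟩
  obtain ⟨q2, hq2⟩ : ∃ q2 : ℝ, q2 = b * β / D := ⟨_, rfl⟩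
  have hq1D : q1 * D = β ^ 2 := by rw [hq1]; field_simp
  have hq2D : q2 * D = b * β := by rw [hq2]; field_simp
  have hq10 : 0 ≤ q1 := by rw [hq1]; positivity
  have hq20 : 0 ≤ q2 := by rw [hq2]; positivity
  have hq1' : q1 ≤ β / 25 := by
    rw [hq1, div_le_iff₀ hD0]
    calc β ^ 2 = β * β := sq β
      _ ≤ β * (D / 25) := mul_le_mul_of_nonneg_left hβD hβ0.le
      _ = β / 25 * D := by ring
  have hq2' : q2 ≤ b / 25 := by
    rw [hq2, div_le_iff₀ hD0]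
    calc (b : ℝ) * β ≤ b * (D / 25) := mul_le_mul_of_nonneg_left hβD hb0.le
      _ = b / 25 * D := by ring
  obtain ⟨Y0, hY0⟩ : ∃ Y0 : ℝ, Y0 = 2 * (q1 + 8 * u + 3 * x * β + q2) := ⟨_, rfl⟩
  have hxβ : x * β ≤ β / 10 := by
    calc x * β ≤ 1 / 10 * β := mul_le_mul_of_nonneg_right hx1 hβ0.le
      _ = β / 10 := by ring
  have hxβ0 : 0 ≤ x * β := by positivity
  have e3 : 3 * x * β = 3 * (x * β) := by ring
  have hY00 : 0 ≤ Y0 := by rw [hY0, e3]; linarith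
  have hY0D : Y0 ≤ D / 30 := by rw [hY0, e3]; linarith
  have hY0D' : Y0 * D = 2 * (β ^ 2 + 8 * (u * D) + 3 * x * β * D + b * β) := by
    rw [hY0, ← hq1D, ← hq2D]
    ring
  -- M, J, K
  obtain ⟨M, hM⟩ : ∃ M : ℕ, M = ⌈((D : ℝ) + β + Y0) / b⌉₊ := ⟨_, rfl⟩
  have hM1 : (D : ℝ) + β + Y0 ≤ b * M := by
    have : ((D : ℝ) + β + Y0) / b ≤ M := by rw [hM]; exact Nat.le_ceil _
    rw [div_le_iff₀ hb0] at this
    linarith
  have hM2 : (b : ℝ) * M ≤ D + β + Y0 + b := by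
    have h3 : (M : ℝ) ≤ (D + β + Y0) / b + 1 := by
      rw [hM]; exact (Nat.ceil_lt_add_one (by positivity)).le
    calc (b : ℝ) * M ≤ b * ((D + β + Y0) / b + 1) := mul_le_mul_of_nonneg_left h3 hb0.le
      _ = D + β + Y0 + b := by field_simp
  have hMu : (M : ℝ) ≤ 1.1 * u := by
    have h3 : (M : ℝ) * b ≤ 1.1 * u * b := by
      rw [mul_assoc, hub]
      linarith
    exact le_of_mul_le_mul_right h3 hb0
  obtain ⟨J, hJ⟩ : ∃ J : ℕ, J = ⌈2 * x * u⌉₊ := ⟨_, rfl⟩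
  have hJ1 : 2 * x * u ≤ J := by rw [hJ]; exact Nat.le_ceil _
  have hJ2 : (J : ℝ) ≤ 2 * x * u + 1 := by
    rw [hJ]; exact (Nat.ceil_lt_add_one (by positivity)).le
  have hxu : x * u ≤ 1 / 10 * u := mul_le_mul_of_nonneg_right hx1 hu0.le
  have e4 : 2 * x * u = 2 * (x * u) := by ring
  have hJu : (J : ℝ) ≤ 0.21 * u := by rw [e4] at hJ2; linarith
  have hM0 : (0 : ℝ) < M := by
    have h3 : (0 : ℝ) < b * M := by linarith
    exact (mul_pos_iff_of_pos_left hb0).1 h3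
  have hKp : (0 : ℝ) < ((M + J : ℕ) : ℝ) := by
    push_cast
    have : (0 : ℝ) ≤ J := Nat.cast_nonneg _
    linarith
  have hKu : ((M + J : ℕ) : ℝ) ≤ 1.4 * u := by
    push_cast
    linarith
  have hJb : (J : ℝ) * b ≤ 2 * x * D + b := by
    calc (J : ℝ) * b ≤ (2 * x * u + 1) * b := mul_le_mul_of_nonneg_right hJ2 hb0.le
      _ = 2 * x * (u * b) + b := by ring
      _ = _ := by rw [hub]
  have hJb' : 2 * x * D ≤ J * b := by
    calc 2 * x * (D : ℝ) = 2 * x * u * b := by rw [mul_assoc (2 * x), hub]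
      _ ≤ _ := mul_le_mul_of_nonneg_right hJ1 hb0.le
  refine ⟨b, M + J, M, r, x, ?_, ?_, ?_, ?_, Nat.le_add_right _ _, hx0, by linarith, ?_, ?_, ?_, ?_⟩
  · have : (1 : ℝ) ≤ b := by linarith
    exact_mod_cast this
  · exact_mod_cast hr1
  · have h3 : (2 * (2 * r + 1) : ℝ) < M := by
      rw [← hR]
      have h4 : 2 * R * b < M * b := by
        rw [mul_assoc, ← hβ]
        linarith
      exact lt_of_mul_lt_mul_right h4 hb0.le
    exact_mod_cast h3
  · have h3 : (D : ℝ) < b * M := by linarith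
    exact_mod_cast h3
  · -- the exponential
    have h3 : 4 * L ≤ x ^ 2 * D / (3 * ((M + J : ℕ) : ℝ)) := by
      rw [le_div_iff₀ (by positivity)]
      have e1 : x ^ 2 * (D : ℝ) = 64 * L * u := by
        rw [← hub, ← hx2]
        ring
      rw [e1]
      have h4 : L * ((M + J : ℕ) : ℝ) ≤ L * (1.4 * u) :=
        mul_le_mul_of_nonneg_left hKu (by linarith)
      have h5 : 0 ≤ L * u := by positivity
      calc 4 * L * (3 * ((M + J : ℕ) : ℝ)) = 12 * (L * ((M + J : ℕ) : ℝ)) := by ring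
        _ ≤ 12 * (L * (1.4 * u)) := mul_le_mul_of_nonneg_left h4 (by norm_num)
        _ = 16.8 * (L * u) := by ring
        _ ≤ 64 * (L * u) := mul_le_mul_of_nonneg_right (by norm_num) h5
        _ = 64 * L * u := by ring
    have h4 : Real.exp (-(x ^ 2 * D / (3 * ((M + J : ℕ) : ℝ)))) ≤ ((D : ℝ) ^ 4)⁻¹ := by
      have e1 : ((D : ℝ) ^ 4)⁻¹ = Real.exp (-(4 * L)) := by
        rw [Real.exp_neg, hLd, show (4 : ℝ) * Real.log D = ((4 : ℕ) : ℝ) * Real.log D by norm_num,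
          Real.exp_nat_mul, Real.exp_log hD0]
      rw [e1]
      exact Real.exp_le_exp.2 (by linarith)
    have h5 : ((M + J : ℕ) : ℝ) ≤ D := by linarith
    have h6 : ((M + J : ℕ) : ℝ) * Real.exp (-(x ^ 2 * D / (3 * ((M + J : ℕ) : ℝ)))) ≤
        D * ((D : ℝ) ^ 4)⁻¹ := mul_le_mul h5 h4 (Real.exp_pos _).le hD0.le
    calc 8 * (((M + J : ℕ) : ℝ) * Real.exp (-(x ^ 2 * D / (3 * ((M + J : ℕ) : ℝ))))) *
          ((D * D : ℕ) : ℝ) ≤ 8 * (D * ((D : ℝ) ^ 4)⁻¹) * ((D * D : ℕ) : ℝ) := by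
          gcongr
      _ = 8 / D := by
          push_cast
          field_simp
      _ ≤ 1 := by
          rw [div_le_one hD0]
          linarith
  · -- the size of the cells
    rw [div_lt_iff₀ hKp]
    push_cast
    have h3 : (b : ℝ) * (M + J) = b * M + J * b := by ring
    have h4 : (1 + x) * (D : ℝ) = D + x * D := by ring
    have h5 : 0 ≤ x * (D : ℝ) := by positivity
    have h6 : 2 * x * (D : ℝ) = 2 * (x * D) := by ring
    rw [h6] at hJb'
    rw [h3, h4]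
    linarith
  · -- the main inequality
    have h3 := main_ineq (D := D) (b := b) (u := u) (β := β) (Y := b * M - D - β) (Y0 := Y0)
      (x := x) (M := M) (K := ((M + J : ℕ) : ℝ)) (R := R) (J := J) hb0 hD0 hub hβ hβ0.le hR0.le hβD
      hx0 hx1 (by push_cast; rfl) hKp hJb rfl hY0D' (by linarith) hMu hu0.le
    rw [hR] at h3
    exact h3
  · -- the number of labels
    push_cast
    have hE1 : S ≤ E := by rw [hE']; linarith
    have hE2 : z ≤ E := by rw [hE']; linarith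
    have hE3 : (p : ℝ) ^ 2 / D ≤ E := by rw [hE']; linarith
    have hbE : (b : ℝ) ≤ 2 * E := by
      have h4 : S + z ≤ E := by rw [hE']; linarith
      linarith
    have h4 : q1 ≤ 10 * E := by
      have h5 : q1 ≤ 8 * ((p : ℝ) ^ 2 / D) + b := by
        rw [hq1, div_le_iff₀ hD0, add_mul, mul_assoc, div_mul_cancel₀ _ hD0.ne']
        have h6 : β ^ 2 ≤ (2 * (p : ℝ) + 3 * b) ^ 2 := pow_le_pow_left₀ hβ0.le hβ2 2
        have h7 : (2 * (p : ℝ) + 3 * b) ^ 2 ≤ 8 * (p : ℝ) ^ 2 + 18 * (b : ℝ) ^ 2 := by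
          have h8 := sq_nonneg (2 * (p : ℝ) - 3 * b)
          have e5 : (2 * (p : ℝ) - 3 * b) ^ 2 = 4 * (p : ℝ) ^ 2 - 12 * (p * b) + 9 * (b : ℝ) ^ 2 := by
            ring
          have e6 : (2 * (p : ℝ) + 3 * b) ^ 2 = 4 * (p : ℝ) ^ 2 + 12 * (p * b) + 9 * (b : ℝ) ^ 2 := by
            ring
          rw [e5] at h8
          rw [e6]
          linarith
        have h8 : (b : ℝ) * (400 * b) ≤ b * D :=
          mul_le_mul_of_nonneg_left (by linarith) hb0.le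
        have e7 : (b : ℝ) * (400 * b) = 400 * (b : ℝ) ^ 2 := by ring
        rw [e7] at h8
        have h9 : 0 ≤ (b : ℝ) ^ 2 := sq_nonneg _
        linarith
      linarith
    have h5 : 3 * x * β ≤ 50 * E := by
      have h6 : x * β ≤ x * (2 * p + 3 * b) := mul_le_mul_of_nonneg_left hβ2 hx0
      have h7 : x * b ≤ 1 / 10 * b := mul_le_mul_of_nonneg_right hx1 hb0.le
      have e5 : x * (2 * (p : ℝ) + 3 * b) = 2 * (x * p) + 3 * (x * b) := by ring
      rw [e5] at h6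
      rw [e3]
      linarith
    have h6 : Y0 ≤ 140 * E := by
      rw [hY0]
      linarith
    have e5 : (4096 + √(D₀ : ℝ)) * E = 4096 * E + √(D₀ : ℝ) * E := by ring
    rw [e5]
    linarith

end Pool.Agent.K1H33.HYS
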